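import Pool.Agent.MP_542436_nt.H5.Defs

/-! The `l`-adic determinant method on a line. -/

set_option autoImplicit false

namespace Pool.Agent.MP_542436_nt.H19

open Polynomial Finset Pool.Agent.MP_542436_nt.H5

theorem exists_prime_not_dvd (J : ℕ) : ∀ (Q : ℕ) (n : ℤ), 1 ≤ Q → n ≠ 0 → |n| < (Q : ℤ) ^ J →
    ∃ l : ℕ, l.Prime ∧ Q < l ∧ l ≤ 2 ^ J * Q ∧ ¬ (l : ℤ) ∣ n := by
  induction J with
  | zero =>
    intro Q n _ hn h
    have := abs_pos.2 hn
    simp at h
    omega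
  | succ J ih =>
    intro Q n hQ hn h
    obtain ⟨p, hp, h1, h2⟩ := Nat.exists_prime_lt_and_le_two_mul Q (by omega)
    by_cases hd : (p : ℤ) ∣ n
    · obtain ⟨n', rfl⟩ := hd
      have hn' : n' ≠ 0 := right_ne_zero_of_mul hn
      have h3 : |n'| < ((2 * Q : ℕ) : ℤ) ^ J := by
        rw [abs_mul, pow_succ, Nat.abs_cast] at h
        have h4 : (Q : ℤ) < p := by exact_mod_cast h1
        have h5 : (0 : ℤ) < Q := by exact_mod_cast hQ
        have h6 : (Q : ℤ) ^ J ≤ ((2 * Q : ℕ) : ℤ) ^ J :=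
          pow_le_pow_left₀ h5.le (by push_cast; linarith) J
        have h7 := abs_pos.2 hn'
        have h8 : |n'| < (Q : ℤ) ^ J := by nlinarith
        linarith
      obtain ⟨l, hl, k1, k2, k3⟩ := ih (2 * Q) n' (by omega) hn' h3
      refine ⟨l, hl, by omega, by rw [pow_succ]; linarith, fun hdd => ?_⟩
      rcases (Nat.prime_iff_prime_int.1 hl).dvd_or_dvd hdd with h4 | h4
      · have := Nat.le_of_dvd hp.pos (Int.natCast_dvd_natCast.1 h4)
        omega
      · exact k3 h4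
    · refine ⟨p, hp, h1, h2.trans ?_, hd⟩
      rw [pow_succ]
      have : 1 ≤ 2 ^ J := Nat.one_le_two_pow
      nlinarith

theorem vander_dvd {N : ℕ} (y : Fin N → ℤ) (Φ : Fin N → ℤ[X]) :
    (Matrix.vandermonde y).det ∣ (Matrix.of fun i j => (Φ j).eval (y i)).det := by
  set W : ℤ[X] := ∏ i, (X - C (y i)) with hW
  have hm : W.Monic := monic_prod_of_monic _ _ fun i _ => monic_X_sub_C _
  have hd : W.natDegree = N := by
    rw [hW, natDegree_prod_of_monic _ _ fun i _ => monic_X_sub_C _]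
    simp only [natDegree_X_sub_C]
    simp
  have : (Matrix.of fun i j => (Φ j).eval (y i)) =
      Matrix.vandermonde y * Matrix.of fun (i j : Fin N) => (Φ j %ₘ W).coeff i := by
    ext i j
    have h0 : W.eval (y i) = 0 := by
      rw [hW, eval_prod]
      exact Finset.prod_eq_zero (Finset.mem_univ i) (by simp)
    have h1 : (Φ j).eval (y i) = (Φ j %ₘ W).eval (y i) := by
      conv_lhs => rw [← modByMonic_add_div (Φ j) W]
      rw [eval_add, eval_mul, h0, zero_mul, add_zero]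
    have h2 : (Φ j %ₘ W).natDegree < N := by
      have hne : W ≠ 1 := by
        intro h
        rw [h, natDegree_one] at hd
        have := i.2
        omega
      rw [← hd]
      exact natDegree_modByMonic_lt _ hm hne
    rw [Matrix.of_apply, h1, eval_eq_sum_range' h2, Matrix.mul_apply,
      ← Fin.sum_univ_eq_sum_range (fun k => (Φ j %ₘ W).coeff k * y i ^ k)]
    exact Finset.sum_congr rfl fun k _ => by simp [mul_comm]
  rw [this, Matrix.det_mul]
  exact Dvd.intro _ rfl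

theorem pow_dvd_vander {N : ℕ} (y : Fin N → ℤ) (l : ℤ) (h : ∀ i j, l ∣ y j - y i) :
    l ^ (N * (N - 1) / 2) ∣ (Matrix.vandermonde y).det := by
  rw [Matrix.det_vandermonde]
  have h1 : ∏ i : Fin N, ∏ _j ∈ Ioi i, l = l ^ (N * (N - 1) / 2) := by
    simp only [Finset.prod_const, Fin.card_Ioi]
    rw [Finset.prod_pow_eq_pow_sum, Fin.sum_univ_eq_sum_range (fun i => N - 1 - i),
      Finset.sum_range_reflect (fun i => i), Finset.sum_range_id]
  rw [← h1]
  exact Finset.prod_dvd_prod_of_dvd _ _ fun i _ =>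
    Finset.prod_dvd_prod_of_dvd _ _ fun j _ => h i j

theorem det_dvd_sub {ι : Type} [Fintype ι] [DecidableEq ι] (A A' : Matrix ι ι ℤ) (n : ℕ)
    (h : ∀ i j, (n : ℤ) ∣ A i j - A' i j) : (n : ℤ) ∣ A.det - A'.det := by
  rw [← ZMod.intCast_eq_intCast_iff_dvd_sub]
  have h1 := (Int.castRingHom (ZMod n)).map_det A
  have h2 := (Int.castRingHom (ZMod n)).map_det A'
  simp only [eq_intCast] at h1 h2
  rw [h1, h2]
  congr 1
  ext i j
  simpa using (ZMod.intCast_eq_intCast_iff_dvd_sub _ _ _).2 (h i j)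

theorem abs_det_le {ι : Type} [Fintype ι] [DecidableEq ι] (A : Matrix ι ι ℤ) (b : ι → ℤ)
    (h : ∀ i j, |A i j| ≤ b j) : |A.det| ≤ (Fintype.card ι).factorial * ∏ j, b j := by
  rw [Matrix.det_apply']
  refine (Finset.abs_sum_le_sum_abs _ _).trans ?_
  have : ∀ σ ∈ (univ : Finset (Equiv.Perm ι)),
      |((Equiv.Perm.sign σ : ℤ) : ℤ) * ∏ i, A (σ i) i| ≤ ∏ j, b j := by
    intro σ _
    rw [abs_mul, Finset.abs_prod]
    have h1 : |((Equiv.Perm.sign σ : ℤˣ) : ℤ)| = 1 := by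
      rcases Int.units_eq_one_or (Equiv.Perm.sign σ) with h | h <;> simp [h]
    rw [h1, one_mul]
    exact Finset.prod_le_prod (fun _ _ => abs_nonneg _) fun j _ => h _ _
  refine (Finset.sum_le_sum (by simpa using this)).trans ?_
  simp [Fintype.card_perm]

theorem hensel (h : ℤ[X]) (e l z0 c : ℤ) (k : ℕ) (hk : k = 2 ∨ k = 3)
    (hc : l ∣ 1 - c * (k * e * z0 ^ (k - 1))) (M : ℕ) :
    ∃ ψ : ℤ[X], ∀ y : ℤ, l ∣ e * z0 ^ k - h.eval y →
      l ∣ ψ.eval y - z0 ∧ l ^ (M + 1) ∣ e * ψ.eval y ^ k - h.eval y := by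
  induction M with
  | zero => exact ⟨C z0, fun y hy => by simpa using hy⟩
  | succ M ih =>
    obtain ⟨ψ, hψ⟩ := ih
    refine ⟨ψ - C c * (C e * ψ ^ k - h), fun y hy => ?_⟩
    obtain ⟨h1, h2⟩ := hψ y hy
    simp only [eval_sub, eval_mul, eval_C, eval_pow]
    generalize ψ.eval y = p at *
    generalize h.eval y = H at *
    have h3 : l ∣ e * p ^ k - H := (dvd_pow_self l (Nat.succ_ne_zero M)).trans h2
    constructor
    · have : p - c * (e * p ^ k - H) - z0 = (p - z0) - c * (e * p ^ k - H) := by ring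
      rw [this]
      exact dvd_sub h1 (h3.mul_left c)
    · have h4 : l ∣ 1 - c * (k * e * p ^ (k - 1)) := by
        have h5 : l ∣ p ^ (k - 1) - z0 ^ (k - 1) := h1.trans (sub_dvd_pow_sub_pow _ _ _)
        have : 1 - c * (k * e * p ^ (k - 1)) =
          (1 - c * (k * e * z0 ^ (k - 1))) - c * k * e * (p ^ (k - 1) - z0 ^ (k - 1)) := by ring
        rw [this]
        exact dvd_sub hc (h5.mul_left _)
      have h6 : ∃ w, e * (p - c * (e * p ^ k - H)) ^ k - H =
          (e * p ^ k - H) * ((1 - c * (k * e * p ^ (k - 1))) + (e * p ^ k - H) * w) := by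
        rcases hk with rfl | rfl
        · exact ⟨e * c ^ 2, by push_cast; ring⟩
        · exact ⟨3 * e * p * c ^ 2 - e * c ^ 3 * (e * p ^ 3 - H), by push_cast; ring⟩
      obtain ⟨w, hw⟩ := h6
      rw [hw, pow_succ]
      exact mul_dvd_mul h2 (dvd_add h4 (h3.mul_right w))

theorem lift_unique {e z0 p z : ℤ} {l k M : ℕ} (hl : l.Prime) (hk : k = 2 ∨ k = 3)
    (hn : ¬ (l : ℤ) ∣ k * e * z0 ^ (k - 1)) (h1 : (l : ℤ) ∣ p - z0) (h2 : (l : ℤ) ∣ z - z0)
    (h : (l : ℤ) ^ M ∣ e * p ^ k - e * z ^ k) : (l : ℤ) ^ M ∣ p - z := by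
  have h3 : ∃ w, e * p ^ k - e * z ^ k = w * (p - z) ∧ (l : ℤ) ∣ w - k * e * z0 ^ (k - 1) := by
    rcases hk with rfl | rfl
    · refine ⟨e * (p + z), by ring, ?_⟩
      have : e * (p + z) - (2 : ℕ) * e * z0 ^ (2 - 1) = e * (p - z0) + e * (z - z0) := by
        push_cast; ring
      rw [this]
      exact dvd_add (h1.mul_left _) (h2.mul_left _)
    · refine ⟨e * (p ^ 2 + p * z + z ^ 2), by ring, ?_⟩
      have : e * (p ^ 2 + p * z + z ^ 2) - (3 : ℕ) * e * z0 ^ (3 - 1) =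
          e * (p + z + z0) * (p - z0) + e * (z + 2 * z0) * (z - z0) := by
        push_cast; ring
      rw [this]
      exact dvd_add (h1.mul_left _) (h2.mul_left _)
  obtain ⟨w, hw, hw'⟩ := h3
  have h4 : ¬ (l : ℤ) ∣ w := fun hd => hn (by simpa using dvd_sub hd hw')
  rw [hw] at h
  exact (Nat.prime_iff_prime_int.1 hl).pow_dvd_of_dvd_mul_left M h4 h

/-- The determinant of a class vanishes. -/
theorem det_zero (h : ℤ[X]) (e z0 : ℤ) (l k D L Z : ℕ) (hl : l.Prime) (hk : k = 2 ∨ k = 3)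
    (hn : ¬ (l : ℤ) ∣ k * e * z0 ^ (k - 1))
    (hsz : ((D + 1) * 2).factorial * (L ^ (D * (D + 1)) * Z ^ (D + 1)) <
      l ^ ((D + 1) * (2 * D + 1)))
    (y z : Fin (D + 1) × Fin 2 → ℤ) (hy : ∀ i, |y i| ≤ L) (hz : ∀ i, |z i| ≤ Z)
    (hyy : ∀ i j, (l : ℤ) ∣ y j - y i) (hzz : ∀ i, (l : ℤ) ∣ z i - z0)
    (he : ∀ i, h.eval (y i) = e * z i ^ k) :
    (Matrix.of fun i j : Fin (D + 1) × Fin 2 => y i ^ (j.1 : ℕ) * z i ^ (j.2 : ℕ)).det = 0 := by
  have hcop : IsCoprime (l : ℤ) (k * e * z0 ^ (k - 1)) :=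
    ((Nat.prime_iff_prime_int.1 hl).irreducible.coprime_iff_not_dvd).2 hn
  obtain ⟨u, c, huc⟩ := hcop
  set M := (D + 1) * (2 * D + 1) with hM
  obtain ⟨ψ, hψ⟩ := hensel h e l z0 c k hk ⟨u, by linarith⟩ M
  have h1 : ∀ i, (l : ℤ) ^ M ∣ z i - ψ.eval (y i) := by
    intro i
    obtain ⟨a1, a2⟩ := hψ (y i) (by
      rw [he, ← mul_sub]
      exact ((dvd_sub_comm.1 (hzz i)).trans (sub_dvd_pow_sub_pow _ _ _)).mul_left _)
    rw [he] at a2
    exact dvd_sub_comm.1 (lift_unique hl hk hn a1 (hzz i) ((pow_dvd_pow _ (Nat.le_succ M)).trans a2))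
  have h2 := det_dvd_sub
    (Matrix.of fun i j : Fin (D + 1) × Fin 2 => y i ^ (j.1 : ℕ) * z i ^ (j.2 : ℕ))
    (Matrix.of fun i j : Fin (D + 1) × Fin 2 => (X ^ (j.1 : ℕ) * ψ ^ (j.2 : ℕ)).eval (y i))
    (l ^ M) (by
      intro i j
      simp only [Matrix.of_apply, eval_mul, eval_pow, eval_X, Nat.cast_pow]
      rw [← mul_sub]
      exact ((h1 i).trans (sub_dvd_pow_sub_pow _ _ _)).mul_left _)
  have h3 : (l : ℤ) ^ M ∣ (Matrix.of fun i j : Fin (D + 1) × Fin 2 =>
      (X ^ (j.1 : ℕ) * ψ ^ (j.2 : ℕ)).eval (y i)).det := by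
    rw [← Matrix.det_submatrix_equiv_self (finProdFinEquiv (m := D + 1) (n := 2)).symm]
    have a1 := pow_dvd_vander (fun i => y (finProdFinEquiv.symm i)) l fun i j => hyy _ _
    have a2 := vander_dvd (fun i => y (finProdFinEquiv.symm i))
      fun j => X ^ ((finProdFinEquiv.symm j).1 : ℕ) * ψ ^ ((finProdFinEquiv.symm j).2 : ℕ)
    have a3 : (D + 1) * 2 * ((D + 1) * 2 - 1) / 2 = M := by
      have : (D + 1) * 2 - 1 = 2 * D + 1 := by omega
      rw [this, hM, mul_right_comm, Nat.mul_div_cancel _ (by norm_num)]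
    rw [a3] at a1
    exact a1.trans a2
  have h4 : (l : ℤ) ^ M ∣
      (Matrix.of fun i j : Fin (D + 1) × Fin 2 => y i ^ (j.1 : ℕ) * z i ^ (j.2 : ℕ)).det := by
    push_cast at h2
    simpa using dvd_add h2 h3
  refine Int.eq_zero_of_abs_lt_dvd h4 ?_
  have h5 := abs_det_le
    (Matrix.of fun i j : Fin (D + 1) × Fin 2 => y i ^ (j.1 : ℕ) * z i ^ (j.2 : ℕ))
    (fun j => (L : ℤ) ^ (j.1 : ℕ) * (Z : ℤ) ^ (j.2 : ℕ)) (by
      intro i j
      rw [Matrix.of_apply, abs_mul, abs_pow, abs_pow]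
      exact mul_le_mul (pow_le_pow_left₀ (abs_nonneg _) (hy i) _)
        (pow_le_pow_left₀ (abs_nonneg _) (hz i) _) (by positivity) (by positivity))
  have h6 : ∏ j : Fin (D + 1) × Fin 2, (L : ℤ) ^ (j.1 : ℕ) * (Z : ℤ) ^ (j.2 : ℕ) =
      (L : ℤ) ^ (D * (D + 1)) * (Z : ℤ) ^ (D + 1) := by
    rw [Fintype.prod_prod_type]
    have : ∀ i : Fin (D + 1), ∏ j : Fin 2, (L : ℤ) ^ (i : ℕ) * (Z : ℤ) ^ (j : ℕ) =
        (L : ℤ) ^ (2 * (i : ℕ)) * Z := by
      intro i
      simp [Fin.prod_univ_two]; ring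
    simp only [this]
    rw [Finset.prod_mul_distrib, Finset.prod_pow_eq_pow_sum, Finset.prod_const,
      ← Finset.mul_sum, Fin.sum_univ_eq_sum_range (fun i => i), mul_comm 2,
      Finset.sum_range_id_mul_two]
    simp [mul_comm]
  rw [h6] at h5
  refine h5.trans_lt ?_
  simp only [Fintype.card_prod, Fintype.card_fin]
  exact_mod_cast hsz

theorem aux_ne (h P0 P1 : ℂ[X]) (e s : ℂ) (k : ℕ) (hk : 2 ≤ k) (he : e ≠ 0) (hs : s ≠ 0)
    (hsep : h.Separable) (hd : 1 ≤ h.natDegree) (hP : P0 ≠ 0 ∨ P1 ≠ 0) :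
    C e * P0 ^ k - C s * (P1 ^ k * h) ≠ 0 := by
  classical
  intro h0
  rw [sub_eq_zero] at h0
  have hh : h ≠ 0 := by rintro rfl; simp at hd
  have hP1 : P1 ≠ 0 := by
    rintro rfl
    rw [zero_pow (by omega), zero_mul, mul_zero, mul_eq_zero] at h0
    rcases h0 with h1 | h1
    · exact he (C_eq_zero.1 h1)
    · exact hP.elim (fun h2 => h2 (pow_eq_zero_iff (by omega) |>.1 h1)) (fun h2 => h2 rfl)
  obtain ⟨α, hα⟩ := IsAlgClosed.exists_root h (by
    rw [degree_eq_natDegree hh]; exact_mod_cast (by omega : h.natDegree ≠ 0))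
  have h1 := congrArg (fun p : ℂ[X] => p.roots.count α) h0
  simp only [roots_C_mul _ he, roots_C_mul _ hs, roots_mul (mul_ne_zero (pow_ne_zero k hP1) hh),
    roots_pow, Multiset.count_add, Multiset.count_nsmul] at h1
  rw [Multiset.count_eq_one_of_mem (nodup_roots hsep) ((mem_roots hh).2 hα)] at h1
  have h2 : k ∣ 1 := (Nat.dvd_add_right (Dvd.intro _ rfl)).1 (h1 ▸ Dvd.intro _ rfl)
  have := Nat.le_of_dvd one_pos h2
  omega

/-- A class is small. -/
theorem class_small (h : ℤ[X]) (e : ℤ) (k D r : ℕ) (hk : k = 2 ∨ k = 3) (he : e ≠ 0)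
    (hr : h.natDegree ≤ r) (hd : 1 ≤ h.natDegree) (hsep : (h.map (Int.castRingHom ℚ)).Separable)
    (S : Finset ℤ) (z : ℤ → ℤ) (hS : ∀ y ∈ S, h.eval y = e * z y ^ k)
    (hdet : ∀ y : Fin (D + 1) × Fin 2 → ℤ, (∀ i, y i ∈ S) →
      (Matrix.of fun i j : Fin (D + 1) × Fin 2 => y i ^ (j.1 : ℕ) * z (y i) ^ (j.2 : ℕ)).det = 0) :
    S.card ≤ 3 * D + r := by
  classical
  set v : S → (Fin (D + 1) × Fin 2 → ℂ) :=
    fun y j => (y.1 : ℂ) ^ (j.1 : ℕ) * (z y.1 : ℂ) ^ (j.2 : ℕ) with hv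
  have hspan : Submodule.span ℂ (Set.range v) < ⊤ := by
    rw [lt_top_iff_ne_top]
    intro htop
    obtain ⟨κ, a, -, h2, h3⟩ := exists_linearIndependent' ℂ v
    let b := Module.Basis.mk h3 (by rw [h2, htop])
    let E := b.indexEquiv (Pi.basisFun ℂ (Fin (D + 1) × Fin 2))
    have h4 : LinearIndependent ℂ (Matrix.of fun i j => v (a (E.symm i)) j).row :=
      h3.comp E.symm E.symm.injective
    have h5 := (Matrix.isUnit_iff_isUnit_det _).1 (Matrix.linearIndependent_rows_iff_isUnit.1 h4)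
    have h6 := hdet (fun i => (a (E.symm i)).1) fun i => (a (E.symm i)).2
    have h7 := (Int.castRingHom ℂ).map_det (Matrix.of fun i j : Fin (D + 1) × Fin 2 =>
      (a (E.symm i)).1 ^ (j.1 : ℕ) * z (a (E.symm i)).1 ^ (j.2 : ℕ))
    rw [h6, map_zero] at h7
    refine h5.ne_zero (Eq.trans (congrArg Matrix.det ?_) h7.symm)
    ext i j
    simp [hv]
  obtain ⟨f, hf0, hf⟩ := Submodule.exists_le_ker_of_lt_top _ hspan
  set a : Fin (D + 1) × Fin 2 → ℂ := fun j => f (Pi.single j 1) with ha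
  have hfa : ∀ w : Fin (D + 1) × Fin 2 → ℂ, f w = ∑ j, w j * a j := by
    intro w
    rw [LinearMap.pi_apply_eq_sum_univ]
    refine Finset.sum_congr rfl fun j _ => ?_
    rw [smul_eq_mul, ha]
    congr 2
    ext i
    simp [Pi.single_apply, eq_comm]
  set P : Fin 2 → ℂ[X] := fun t => ∑ i : Fin (D + 1), monomial i (a (i, t)) with hP
  have hPc : ∀ t (i : Fin (D + 1)), (P t).coeff i = a (i, t) := by
    intro t i
    simp only [hP, finsetSum_coeff, coeff_monomial, Fin.val_inj]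
    simp
  have hPd : ∀ t, (P t).natDegree ≤ D := fun t =>
    natDegree_sum_le_of_forall_le _ _ fun i _ =>
      (natDegree_monomial_le _).trans (Nat.lt_succ_iff.1 i.2)
  have hPne : P 0 ≠ 0 ∨ P 1 ≠ 0 := by
    by_contra hc
    push Not at hc
    refine hf0 (LinearMap.ext fun w => ?_)
    rw [hfa]
    refine Finset.sum_eq_zero fun j _ => ?_
    obtain ⟨i, t⟩ := j
    rw [← hPc]
    fin_cases t
    · simp [hc.1]
    · simp [hc.2]
  set H : ℂ[X] := h.map (Int.castRingHom ℂ) with hH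
  have hHs : H.Separable := by
    have := hsep.map (f := algebraMap ℚ ℂ)
    rwa [Polynomial.map_map, RingHom.ext_int ((algebraMap ℚ ℂ).comp _) (Int.castRingHom ℂ)] at this
  have hHd : H.natDegree = h.natDegree :=
    natDegree_map_eq_of_injective (RingHom.injective_int _) h
  have hR := aux_ne H (P 0) (P 1) e ((-1) ^ k) k (by omega) (by exact_mod_cast he) (by simp) hHs
    (by omega) hPne
  set R := C (e : ℂ) * P 0 ^ k - C ((-1 : ℂ) ^ k) * (P 1 ^ k * H) with hRd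
  have hRdeg : R.natDegree ≤ 3 * D + r := by
    have k3 : k ≤ 3 := by omega
    have a0 : ∀ t, (P t ^ k).natDegree ≤ 3 * D := fun t =>
      natDegree_pow_le.trans (Nat.mul_le_mul k3 (hPd t))
    refine (natDegree_sub_le _ _).trans (max_le ?_ ?_)
    · exact (natDegree_C_mul_le _ _).trans ((a0 0).trans (Nat.le_add_right _ _))
    · exact (natDegree_C_mul_le _ _).trans (natDegree_mul_le.trans
        (Nat.add_le_add (a0 1) (by omega)))
  refine le_trans ?_ hRdeg
  rw [← Finset.card_image_of_injective S (Int.cast_injective (α := ℂ))]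
  refine card_le_degree_of_subset_roots fun w hw => ?_
  obtain ⟨y, hy, rfl⟩ := Finset.mem_image.1 hw
  rw [mem_roots hR, IsRoot.def]
  have h1 : f (v ⟨y, hy⟩) = 0 := hf (Submodule.subset_span ⟨_, rfl⟩)
  have h2 : (P 0).eval (y : ℂ) = -((P 1).eval (y : ℂ) * z y) := by
    rw [hfa, Fintype.sum_prod_type] at h1
    simp only [hv, Fin.sum_univ_two] at h1
    simp only [hP, eval_finsetSum, eval_monomial]
    rw [Finset.sum_mul, eq_neg_iff_add_eq_zero, ← Finset.sum_add_distrib, ← h1]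
    exact Finset.sum_congr rfl fun i _ => by simp; ring
  have h3 : H.eval (y : ℂ) = e * (z y : ℂ) ^ k := by
    have := eval_intCast_map (Int.castRingHom ℂ) h y
    rw [hH, this, Int.cast_id, hS y hy]; simp
  simp only [hRd, eval_sub, eval_mul, eval_C, eval_pow]
  rw [h2, h3, neg_pow, mul_pow]
  ring

theorem line : LineStmt := by
  classical
  intro r c γ hγ
  set a : ℕ := ⌈(c : ℝ) / γ⌉₊ with ha
  set D := 5 * a with hD
  set J := 2 * a + 1 with hJ
  set T := 3 * (2 ^ J * 2) * (3 * D + r + 1) with hT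
  set L0 : ℕ := T ^ 15 + (((D + 1) * 2).factorial ^ 5 + 10) with hL0
  obtain ⟨B0, hB0⟩ : ∃ B0 : ℕ, ∀ B : ℕ, B0 ≤ B → (L0 : ℝ) ≤ (B : ℝ) ^ γ := by
    have := ((tendsto_rpow_atTop hγ).comp tendsto_natCast_atTop_atTop).eventually_ge_atTop (L0 : ℝ)
    exact Filter.eventually_atTop.1 this
  refine ⟨B0 + 4, fun B hB h e k L hk hr hd hsep he heB hL1 hL2 S hS => ?_⟩
  have hL : L0 ≤ L := by exact_mod_cast (hB0 B (by omega)).trans hL1
  have hL10 : 10 ≤ L := by omega
  have hLr : (1 : ℝ) ≤ L := by exact_mod_cast (by omega : 1 ≤ L)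
  have hB1 : (1 : ℝ) ≤ B := by exact_mod_cast (by omega : 1 ≤ B)
  have hBL : B ^ c ≤ L ^ a := by
    have h1 : (c : ℝ) ≤ γ * a := by
      have := Nat.le_ceil ((c : ℝ) / γ)
      rw [div_le_iff₀ hγ] at this
      linarith
    have h2 : ((B : ℝ) ^ c) ≤ (L : ℝ) ^ a := by
      calc ((B : ℝ) ^ c) = (B : ℝ) ^ (c : ℝ) := (Real.rpow_natCast _ _).symm
        _ ≤ (B : ℝ) ^ (γ * a) := Real.rpow_le_rpow_of_exponent_le hB1 h1
        _ = ((B : ℝ) ^ γ) ^ a := by rw [Real.rpow_mul (by linarith), Real.rpow_natCast]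
        _ ≤ _ := pow_le_pow_left₀ (by positivity) hL1 a
    exact_mod_cast h2
  set x : ℝ := (L : ℝ) ^ ((1 : ℝ) / 15) with hx
  have hx15 : x ^ 15 = L := by
    rw [hx, ← Real.rpow_natCast, ← Real.rpow_mul (by linarith)]; norm_num
  have hx1 : 1 ≤ x := Real.one_le_rpow hLr (by norm_num)
  have hx10 : (L : ℝ) ^ ((2 : ℝ) / 3) = x ^ 10 := by
    rw [hx, ← Real.rpow_natCast, ← Real.rpow_mul (by linarith)]; norm_num
  have hTx : (T : ℝ) ≤ x := by
    refine le_of_pow_le_pow_left₀ (n := 15) (by norm_num) (by linarith) ?_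
    rw [hx15]
    exact_mod_cast (by omega : T ^ 15 ≤ L)
  set Q : ℕ := ⌈x ^ 9⌉₊ with hQ
  have hx9 : 1 ≤ x ^ 9 := one_le_pow₀ hx1
  have hQ1 : x ^ 9 ≤ Q := Nat.le_ceil _
  have hQ2 : (Q : ℝ) ≤ 2 * x ^ 9 := by
    have := Nat.ceil_lt_add_one (a := x ^ 9) (by linarith)
    linarith
  have hQ5 : L ^ 3 ≤ Q ^ 5 := by
    have : (L : ℝ) ^ 3 ≤ (Q : ℝ) ^ 5 := by
      rw [← hx15]
      calc (x ^ 15) ^ 3 = (x ^ 9) ^ 5 := by ring
        _ ≤ _ := pow_le_pow_left₀ (by positivity) hQ1 5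
    exact_mod_cast this
  have hQ4 : 4 ≤ Q := by
    by_contra hc
    have h1 : Q ^ 5 ≤ 3 ^ 5 := Nat.pow_le_pow_left (by omega) 5
    have h2 : 10 ^ 3 ≤ L ^ 3 := Nat.pow_le_pow_left hL10 3
    omega
  have hQL : L ≤ Q ^ 2 := by
    have : (L : ℝ) ≤ (Q : ℝ) ^ 2 := by
      rw [← hx15]
      calc x ^ 15 ≤ x ^ 18 := pow_le_pow_right₀ hx1 (by norm_num)
        _ = (x ^ 9) ^ 2 := by ring
        _ ≤ _ := pow_le_pow_left₀ (by positivity) hQ1 2
    exact_mod_cast this
  obtain ⟨l, hl, hl1, hl2, hl3⟩ := exists_prime_not_dvd J Q e (by omega) he (by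
    have h1 : B ^ c < Q ^ J := by
      calc B ^ c ≤ (Q ^ 2) ^ a := hBL.trans (Nat.pow_le_pow_left hQL a)
        _ = Q ^ (2 * a) := by rw [← pow_mul]
        _ < _ := Nat.pow_lt_pow_right (by omega) (by omega)
    exact heB.trans_lt (by exact_mod_cast h1))
  have hlx : (3 * l * (3 * D + r + 1) : ℝ) ≤ x ^ 10 := by
    have h1 : (l : ℝ) ≤ 2 ^ J * (2 * x ^ 9) := by
      have : (l : ℝ) ≤ 2 ^ J * Q := by exact_mod_cast hl2
      exact this.trans (mul_le_mul_of_nonneg_left hQ2 (by positivity))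
    calc (3 * l * (3 * D + r + 1) : ℝ) ≤ 3 * (2 ^ J * (2 * x ^ 9)) * (3 * D + r + 1) := by gcongr
      _ = T * x ^ 9 := by rw [hT]; push_cast; ring
      _ ≤ x * x ^ 9 := mul_le_mul_of_nonneg_right hTx (by positivity)
      _ = _ := by ring
  have hlB : l ≤ B := by
    have h1 : (3 * l : ℝ) ≤ x ^ 10 := by
      refine le_trans ?_ hlx
      have : (0 : ℝ) ≤ 3 * l * (3 * D + r) := by positivity
      linarith
    have h2 : x ^ 10 ≤ x ^ 15 := pow_le_pow_right₀ hx1 (by norm_num)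
    have h3 : (3 * l : ℝ) ≤ L := by linarith
    have h4 : 3 * l ≤ L := by exact_mod_cast h3
    omega
  have hsz : ((D + 1) * 2).factorial * (L ^ (D * (D + 1)) * (B ^ c) ^ (D + 1)) <
      l ^ ((D + 1) * (2 * D + 1)) := by
    refine lt_of_pow_lt_pow_left₀ 5 (Nat.zero_le _) ?_
    have h1 : ((D + 1) * 2).factorial ^ 5 < L ^ (3 * (D + 1)) :=
      lt_of_lt_of_le (by omega) (Nat.le_self_pow (by omega) L)
    calc (((D + 1) * 2).factorial * (L ^ (D * (D + 1)) * (B ^ c) ^ (D + 1))) ^ 5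
        ≤ (((D + 1) * 2).factorial * (L ^ (D * (D + 1)) * (L ^ a) ^ (D + 1))) ^ 5 := by gcongr
      _ = ((D + 1) * 2).factorial ^ 5 * L ^ (6 * D * (D + 1)) := by
        rw [mul_pow, ← pow_mul, ← pow_add, ← pow_mul]
        congr 2
        rw [hD]; ring
      _ < L ^ (3 * (D + 1)) * L ^ (6 * D * (D + 1)) :=
        Nat.mul_lt_mul_of_pos_right h1 (by positivity)
      _ = (L ^ 3) ^ ((D + 1) * (2 * D + 1)) := by
        rw [← pow_add, ← pow_mul]; congr 1; ring
      _ ≤ (l ^ 5) ^ ((D + 1) * (2 * D + 1)) :=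
        Nat.pow_le_pow_left (hQ5.trans (Nat.pow_le_pow_left hl1.le 5)) _
      _ = _ := by rw [← pow_mul, ← pow_mul, mul_comm]
  choose! hS1 z hz1 hz2 hz3 using hS
  have : Fact l.Prime := ⟨hl⟩
  have hpl := Nat.prime_iff_prime_int.1 hl
  have hcard : S.card ≤ (3 * D + r) * (S.image fun y : ℤ => ((y : ZMod l), (z y : ZMod l))).card := by
    refine Finset.card_le_mul_card_image _ _ fun w hw => ?_
    obtain ⟨y0, hy0, rfl⟩ := Finset.mem_image.1 hw
    refine class_small h e k D r hk he hr hd hsep _ (fun y => (z y : ℤ))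
      (fun y hy => hz1 y (Finset.mem_filter.1 hy).1) fun y hy => ?_
    have hy1 := fun i => (Finset.mem_filter.1 (hy i)).1
    have hy2 := fun i => Prod.mk.inj (Finset.mem_filter.1 (hy i)).2
    refine det_zero h e (z y0) l k D L (B ^ c) hl hk ?_ hsz y (fun i => (z (y i) : ℤ))
      (fun i => hS1 _ (hy1 i)) (fun i => ?_) (fun i j => ?_) (fun i => ?_) (fun i => hz1 _ (hy1 i))
    · intro hdv
      rcases hpl.dvd_or_dvd hdv with h1 | h1
      · rcases hpl.dvd_or_dvd h1 with h2 | h2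
        · have := Nat.le_of_dvd (by omega) (Int.natCast_dvd_natCast.1 h2)
          omega
        · exact hl3 h2
      · have := hz3 y0 hy0 l hl (Int.natCast_dvd_natCast.1 (hpl.dvd_of_dvd_pow h1))
        omega
    · rw [Nat.abs_cast]; exact_mod_cast hz2 _ (hy1 i)
    · exact (ZMod.intCast_eq_intCast_iff_dvd_sub _ _ _).1 ((hy2 i).1.trans (hy2 j).1.symm)
    · refine (ZMod.intCast_eq_intCast_iff_dvd_sub _ _ _).1 ?_
      push_cast
      exact (hy2 i).2.symm
  have hcls : (S.image fun y : ℤ => ((y : ZMod l), (z y : ZMod l))).card ≤ 3 * l := by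
    have h1 := Finset.card_le_mul_card_image_of_maps_to (f := Prod.fst)
      (s := S.image fun y : ℤ => ((y : ZMod l), (z y : ZMod l))) (t := Finset.univ)
      (fun _ _ => Finset.mem_univ _) 3 (by
        intro y0 _
        have he' : (e : ZMod l) ≠ 0 := fun h0 => hl3 ((ZMod.intCast_zmod_eq_zero_iff_dvd _ _).1 h0)
        set R : (ZMod l)[X] := C (e : ZMod l) * X ^ k - C ((h.map (Int.castRingHom _)).eval y0)
          with hR
        have hRd : R.natDegree = k := by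
          rw [hR, natDegree_sub_C, natDegree_C_mul_X_pow _ _ he']
        have hR0 : R ≠ 0 := by
          intro h0
          rw [h0, natDegree_zero] at hRd
          omega
        rw [← Finset.card_image_of_injOn (f := Prod.snd) (by
          intro p hp q hq hpq
          exact Prod.ext ((Finset.mem_filter.1 hp).2.trans (Finset.mem_filter.1 hq).2.symm) hpq)]
        refine le_trans (card_le_degree_of_subset_roots (p := R) fun w hw => ?_) (by omega)
        obtain ⟨p, hp, rfl⟩ := Finset.mem_image.1 hw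
        obtain ⟨hp1, hp2⟩ := Finset.mem_filter.1 hp
        obtain ⟨y, hy, rfl⟩ := Finset.mem_image.1 hp1
        rw [mem_roots hR0, IsRoot.def, hR, ← hp2]
        simp only [eval_sub, eval_mul, eval_C, eval_pow, eval_X]
        rw [eval_intCast_map, Int.cast_id, hz1 y hy]
        simp)
    simpa [ZMod.card] using h1
  rw [hx10]
  refine le_trans ?_ hlx
  have h1 : S.card ≤ 3 * l * (3 * D + r + 1) := by
    calc S.card ≤ (3 * D + r) * (3 * l) := hcard.trans (Nat.mul_le_mul_left _ hcls)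
      _ ≤ _ := by rw [mul_comm]; exact Nat.mul_le_mul_left _ (Nat.le_succ _)
  exact_mod_cast h1

end Pool.Agent.MP_542436_nt.H19
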